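import Pool.Agent.HJI.Balance

set_option autoImplicit false

/-!
# Colourings of `[2B+1]^d` assembled from proper colourings of the cubes `[2B]^I`
-/

namespace Pool.HJI

/-- the middle value -/
def mid (B : ℕ) : Fin (2 * B + 1) := ⟨B, by omega⟩

/-- the increasing map `[2B] → [2B+1]` that omits the middle value -/
def emb (B : ℕ) : Fin (2 * B) → Fin (2 * B + 1) := (mid B).succAbove

lemma rev_mid (B : ℕ) : (mid B).rev = mid B := by
  ext
  simp only [mid, Fin.val_rev]
  omega

lemma emb_inj (B : ℕ) : Function.Injective (emb B) := Fin.succAbove_right_injective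

lemma emb_ne (B : ℕ) (j : Fin (2 * B)) : emb B j ≠ mid B := Fin.succAbove_ne _ _

lemma rev_emb (B : ℕ) (j : Fin (2 * B)) : (emb B j).rev = emb B j.rev := by
  unfold emb
  rw [Fin.rev_succAbove, rev_mid]

lemma exists_emb {B : ℕ} {x : Fin (2 * B + 1)} (h : x ≠ mid B) : ∃ j, emb B j = x :=
  Fin.exists_succAbove_eq h

/-- the point with coordinates `y` on `I` and the middle value off `I` -/
def glue (B d : ℕ) (p : Σ I : Finset (Fin d), (↥I → Fin (2 * B))) : Fin d → Fin (2 * B + 1) :=
  fun i => if h : i ∈ p.1 then emb B (p.2 ⟨i, h⟩) else mid B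

lemma glue_mem {B d : ℕ} (I : Finset (Fin d)) (y : ↥I → Fin (2 * B)) {i : Fin d} (h : i ∈ I) :
    glue B d ⟨I, y⟩ i = emb B (y ⟨i, h⟩) := by
  simp [glue, h]

lemma glue_notMem {B d : ℕ} (I : Finset (Fin d)) (y : ↥I → Fin (2 * B)) {i : Fin d} (h : i ∉ I) :
    glue B d ⟨I, y⟩ i = mid B := by
  simp [glue, h]

lemma glue_bij (B d : ℕ) : Function.Bijective (glue B d) := by
  constructor
  · rintro ⟨I, y⟩ ⟨I', y'⟩ h
    have hI : I = I' := by
      ext i
      have hi := congrFun h i
      by_cases h1 : i ∈ I <;> by_cases h2 : i ∈ I'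
      · simp [h1, h2]
      · rw [glue_mem I y h1, glue_notMem I' y' h2] at hi
        exact absurd hi (emb_ne B _)
      · rw [glue_notMem I y h1, glue_mem I' y' h2] at hi
        exact absurd hi.symm (emb_ne B _)
      · simp [h1, h2]
    subst hI
    have hy : y = y' := by
      funext i
      have hi := congrFun h i.1
      rw [glue_mem I y i.2, glue_mem I y' i.2] at hi
      exact emb_inj B hi
    rw [hy]
  · intro x
    have h : ∀ i : ↥(Finset.univ.filter (fun i => x i ≠ mid B)), ∃ j, emb B j = x i.1 := by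
      intro i
      exact exists_emb (Finset.mem_filter.mp i.2).2
    choose y hy using h
    refine ⟨⟨_, y⟩, ?_⟩
    funext i
    by_cases h1 : i ∈ Finset.univ.filter (fun i => x i ≠ mid B)
    · rw [glue_mem _ y h1]
      exact hy ⟨i, h1⟩
    · rw [glue_notMem _ y h1]
      simp only [Finset.mem_filter, Finset.mem_univ, true_and, not_not] at h1
      exact h1.symm

/-- the points off the middle of a geometric line form a geometric line of some `[2B]^I` -/
lemma line_glue {B d : ℕ} (hB : 1 ≤ B) {P : Fin (2 * B + 1) → Fin d → Fin (2 * B + 1)} (hP : IsLine P) :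
    ∃ (I : Finset (Fin d)) (Q : Fin (2 * B) → ↥I → Fin (2 * B)), IsLine Q ∧
      ∀ j, P (emb B j) = glue B d ⟨I, Q j⟩ := by
  set j0 : Fin (2 * B) := ⟨0, by omega⟩
  set j1 : Fin (2 * B) := ⟨1, by omega⟩
  have hkey : ∀ i, P (emb B j0) i ≠ mid B → ∀ j, P (emb B j) i ≠ mid B := by
    intro i hi j
    rcases hP.1 i with h | h | h
    · rw [h (emb B j) (emb B j0)]; exact hi
    · rw [h]; exact emb_ne B j
    · rw [h, rev_emb]; exact emb_ne B _
  have hex : ∀ (j : Fin (2 * B)) (i : ↥(Finset.univ.filter (fun i => P (emb B j0) i ≠ mid B))),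
      ∃ k, emb B k = P (emb B j) i.1 := by
    intro j i
    exact exists_emb (hkey i.1 (Finset.mem_filter.mp i.2).2 j)
  choose Q hQ using hex
  refine ⟨_, Q, ⟨?_, ?_⟩, ?_⟩
  · intro i
    rcases hP.1 i.1 with h | h | h
    · left
      intro j j'
      apply emb_inj B
      rw [hQ, hQ]
      exact h _ _
    · right; left
      intro j
      apply emb_inj B
      rw [hQ]
      exact h _
    · right; right
      intro j
      apply emb_inj B
      rw [hQ, h, rev_emb]
  · obtain ⟨i, j, j', hj⟩ := hP.2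
    rcases hP.1 i with h | h | h
    · exact absurd (h j j') hj
    · have hi : i ∈ Finset.univ.filter (fun i => P (emb B j0) i ≠ mid B) := by
        simp only [Finset.mem_filter, Finset.mem_univ, true_and]
        rw [h]; exact emb_ne B _
      refine ⟨⟨i, hi⟩, j0, j1, ?_⟩
      intro he
      have h1 := congrArg (emb B) he
      rw [hQ, hQ, h, h] at h1
      have h2 := emb_inj B h1
      simp [j0, j1] at h2
    · have hi : i ∈ Finset.univ.filter (fun i => P (emb B j0) i ≠ mid B) := by
        simp only [Finset.mem_filter, Finset.mem_univ, true_and]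
        rw [h, rev_emb]; exact emb_ne B _
      refine ⟨⟨i, hi⟩, j0, j1, ?_⟩
      intro he
      have h1 := congrArg (emb B) he
      rw [hQ, hQ, h, h] at h1
      have h2 := emb_inj B (Fin.rev_injective h1)
      simp [j0, j1] at h2
  · intro j
    funext i
    by_cases h1 : i ∈ Finset.univ.filter (fun i => P (emb B j0) i ≠ mid B)
    · rw [glue_mem _ _ h1]
      exact (hQ j ⟨i, h1⟩).symm
    · rw [glue_notMem _ _ h1]
      simp only [Finset.mem_filter, Finset.mem_univ, true_and, not_not] at h1
      rcases hP.1 i with h | h | h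
      · rw [h _ (emb B j0)]; exact h1
      · rw [h] at h1; exact absurd h1 (emb_ne B _)
      · rw [h, rev_emb] at h1; exact absurd h1 (emb_ne B _)

/-- the assembled colouring: on every geometric line two points off the middle have different colours, and
the signed sum is the sign of the centre -/
theorem assemble {B d : ℕ} (hB : 1 ≤ B) (a : Finset (Fin d) → ℤ)
    (ha : ∀ I, I.Nonempty → a I ∈ Sums (2 * B) I.card) (hs : ∑ I ∈ Finset.univ.erase ∅, a I = 0) :
    ∃ C : (Fin d → Fin (2 * B + 1)) → Bool,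
      (∀ P : Fin (2 * B + 1) → Fin d → Fin (2 * B + 1), IsLine P →
        ∃ j j' : Fin (2 * B), C (P (emb B j)) ≠ C (P (emb B j'))) ∧
      S C = sg (C (fun _ => mid B)) := by
  have hc : ∀ I : Finset (Fin d), ∃ c : (↥I → Fin (2 * B)) → Bool, Proper c ∧ (I.Nonempty → S c = a I) := by
    intro I
    rcases I.eq_empty_or_nonempty with rfl | hI
    · refine ⟨fun _ => true, ?_, fun h => absurd h (by simp)⟩
      intro P hP
      obtain ⟨i, _⟩ := hP.2
      exact absurd i.2 (Finset.notMem_empty _)
    · obtain ⟨c, h1, h2⟩ := Sums_transport (ha I hI) (ι := ↥I) (by simp)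
      exact ⟨c, h1, fun _ => h2⟩
  choose c hc1 hc2 using hc
  set Φ := Equiv.ofBijective (glue B d) (glue_bij B d) with hΦ
  have hval : ∀ p, Φ.symm (glue B d p) = p := by
    intro p
    exact Φ.symm_apply_apply p
  refine ⟨fun x => c (Φ.symm x).1 (Φ.symm x).2, ?_, ?_⟩
  · intro P hP
    obtain ⟨I, Q, hQ, hPQ⟩ := line_glue hB hP
    obtain ⟨j, j', hj⟩ := hc1 I Q hQ
    refine ⟨j, j', ?_⟩
    show c (Φ.symm (P (emb B j))).1 (Φ.symm (P (emb B j))).2 ≠ c (Φ.symm (P (emb B j'))).1 (Φ.symm (P (emb B j'))).2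
    rw [hPQ, hPQ, hval, hval]
    exact hj
  · have h1 : S (fun x => c (Φ.symm x).1 (Φ.symm x).2) = ∑ I, S (c I) := by
      have h2 := S_equiv Φ (fun x => c (Φ.symm x).1 (Φ.symm x).2)
      rw [← h2]
      unfold S
      rw [Fintype.sum_sigma]
      apply Finset.sum_congr rfl
      intro I _
      apply Finset.sum_congr rfl
      intro y _
      show sg (c (Φ.symm (Φ ⟨I, y⟩)).1 (Φ.symm (Φ ⟨I, y⟩)).2) = sg (c I y)
      rw [Φ.symm_apply_apply]
    rw [h1, ← Finset.add_sum_erase _ _ (Finset.mem_univ ∅)]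
    have h3 : ∑ I ∈ Finset.univ.erase ∅, S (c I) = 0 := by
      rw [← hs]
      apply Finset.sum_congr rfl
      intro I hI
      exact hc2 I (Finset.nonempty_iff_ne_empty.mpr (Finset.mem_erase.mp hI).1)
    rw [h3, add_zero]
    have h4 : (fun _ => mid B : Fin d → Fin (2 * B + 1)) = glue B d ⟨∅, fun i => absurd i.2 (Finset.notMem_empty _)⟩ := by
      funext i
      rw [glue_notMem _ _ (by simp)]
    show S (c ∅) = sg (c (Φ.symm (fun _ => mid B)).1 (Φ.symm (fun _ => mid B)).2)
    rw [h4, hval]
    unfold S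
    have : Unique (↥(∅ : Finset (Fin d)) → Fin (2 * B)) := by
      have : IsEmpty ↥(∅ : Finset (Fin d)) := ⟨fun i => absurd i.2 (Finset.notMem_empty _)⟩
      infer_instance
    rw [Fintype.sum_unique]
    congr 2
    exact Subsingleton.elim _ _

end Pool.HJI
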