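import Pool.Agent.HJI.Basic

set_option autoImplicit false

/-!
# Compensation of the signed sums
-/

namespace Pool.HJI

/-- every `s` with `|s| ≤ L` can be moved to `{-1, 0, 1}` by an element of `A` -/
def Reach (A : Set ℤ) (L : ℤ) : Prop := ∀ s : ℤ, |s| ≤ L → ∃ a ∈ A, |s + a| ≤ 1

/-- the sums over `Q` -/
def SS (n d : ℕ) (Q : Finset (Finset (Fin d))) : Set ℤ :=
  {s | ∃ a : Finset (Fin d) → ℤ, (∀ I ∈ Q, a I ∈ Sums n I.card) ∧ s = ∑ I ∈ Q, a I}

lemma SS_insert {n d : ℕ} {Q : Finset (Finset (Fin d))} {I : Finset (Fin d)} (hI : I ∉ Q) {s t : ℤ}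
    (hs : s ∈ SS n d Q) (ht : t ∈ Sums n I.card) : t + s ∈ SS n d (insert I Q) := by
  obtain ⟨a, ha, rfl⟩ := hs
  refine ⟨fun J => if J = I then t else a J, ?_, ?_⟩
  · intro J hJ
    by_cases h : J = I
    · subst h; simpa using ht
    · simp only [h, if_false]
      exact ha J ((Finset.mem_insert.mp hJ).resolve_left h)
  · rw [Finset.sum_insert hI]
    simp only [if_true]
    congr 1
    apply Finset.sum_congr rfl
    intro J hJ
    have : J ≠ I := fun h => hI (h ▸ hJ)
    simp [this]

lemma reach_pm {n d : ℕ} {Q : Finset (Finset (Fin d))} {I : Finset (Fin d)} (hI : I ∉ Q) {L t : ℤ}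
    (h : Reach (SS n d Q) L) (ht : t ∈ Sums n I.card) (hL : t ≤ L) :
    Reach (SS n d (insert I Q)) (L + t) := by
  intro s hs
  rcases le_total 0 s with hs0 | hs0
  · rw [abs_of_nonneg hs0] at hs
    obtain ⟨a, ha, hsa⟩ := h (s - t) (abs_le.mpr ⟨by omega, by omega⟩)
    refine ⟨-t + a, SS_insert hI ha (Sums_neg ht), ?_⟩
    rwa [show s + (-t + a) = s - t + a by ring]
  · rw [abs_of_nonpos hs0] at hs
    obtain ⟨a, ha, hsa⟩ := h (s + t) (abs_le.mpr ⟨by omega, by omega⟩)
    refine ⟨t + a, SS_insert hI ha ht, ?_⟩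
    rwa [show s + (t + a) = s + t + a by ring]

lemma reach_even {n d : ℕ} (hn : Even n) (hn2 : 2 ≤ n) {Q : Finset (Finset (Fin d))} {I : Finset (Fin d)} (hI : I ∉ Q)
    {L : ℤ} (h : Reach (SS n d Q) L) (hc : I.card = 1) (hL : 1 ≤ L) :
    Reach (SS n d (insert I Q)) (L + (n - 2)) := by
  obtain ⟨m, hm⟩ := hn
  -- an even number `e` with `|e| ≤ n - 2` and `|s - e| ≤ L`
  have key : ∀ s : ℤ, |s| ≤ L + (n - 2) → ∃ f : ℤ, |f| ≤ m - 1 ∧ |s - 2 * f| ≤ L := by
    intro s hs
    have hs' := abs_le.mp hs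
    by_cases h1 : s > L
    · refine ⟨(s - L + 1) / 2, abs_le.mpr ⟨by omega, by omega⟩, abs_le.mpr ⟨by omega, by omega⟩⟩
    · by_cases h2 : s < -L
      · refine ⟨-((-s - L + 1) / 2), abs_le.mpr ⟨by omega, by omega⟩, abs_le.mpr ⟨by omega, by omega⟩⟩
      · refine ⟨0, ?_, ?_⟩
        · rw [abs_zero]; omega
        · simpa using abs_le.mpr ⟨by omega, by omega⟩
  intro s hs
  obtain ⟨f, hf, hsf⟩ := key s hs
  obtain ⟨a, ha, hsa⟩ := h _ hsf
  refine ⟨-(2 * f) + a, SS_insert hI ha ?_, ?_⟩
  · rw [hc]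
    apply Sums_one ⟨m, hm⟩
    · exact ⟨-f, by ring⟩
    · rw [abs_neg, abs_mul, abs_two]
      omega
  · rwa [show s + (-(2 * f) + a) = s - 2 * f + a by ring]

lemma reach_pm_union {n d i : ℕ} {t : ℤ} (ht : t ∈ Sums n i) (h0 : 0 ≤ t)
    (R : Finset (Finset (Fin d))) :
    ∀ (Q : Finset (Finset (Fin d))) (L : ℤ), Reach (SS n d Q) L → Disjoint Q R → (∀ I ∈ R, I.card = i) → t ≤ L →
      Reach (SS n d (Q ∪ R)) (L + R.card * t) := by
  induction R using Finset.induction_on with
  | empty => intro Q L h _ _ _; simpa using h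
  | insert I R hIR ih =>
    intro Q L h hd hc hL
    have hIQ : I ∉ Q := by
      rw [Finset.disjoint_right] at hd
      exact hd (Finset.mem_insert_self I R)
    have h1 := reach_pm hIQ h (by rw [hc I (Finset.mem_insert_self I R)]; exact ht) hL
    have h2 := ih (insert I Q) (L + t) h1 ?_ (fun J hJ => hc J (Finset.mem_insert_of_mem hJ)) (by omega)
    · rw [Finset.card_insert_of_notMem hIR]
      have h3 : Q ∪ insert I R = insert I Q ∪ R := by
        ext J; simp only [Finset.mem_union, Finset.mem_insert]; tauto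
      rw [h3]
      have h4 : L + ((R.card + 1 : ℕ) : ℤ) * t = L + t + R.card * t := by push_cast; ring
      rw [h4]
      exact h2
    · rw [Finset.disjoint_left] at hd ⊢
      intro J hJ hJR
      rcases Finset.mem_insert.mp hJ with rfl | hJ
      · exact hIR hJR
      · exact hd hJ (Finset.mem_insert_of_mem hJR)

lemma reach_even_union {n d : ℕ} (hn : Even n) (hn2 : 2 ≤ n)
    (R : Finset (Finset (Fin d))) :
    ∀ (Q : Finset (Finset (Fin d))) (L : ℤ), Reach (SS n d Q) L → Disjoint Q R → (∀ I ∈ R, I.card = 1) → 1 ≤ L →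
      Reach (SS n d (Q ∪ R)) (L + R.card * (n - 2)) := by
  induction R using Finset.induction_on with
  | empty => intro Q L h _ _ _; simpa using h
  | insert I R hIR ih =>
    intro Q L h hd hc hL
    have hIQ : I ∉ Q := by
      rw [Finset.disjoint_right] at hd
      exact hd (Finset.mem_insert_self I R)
    have h1 := reach_even hn hn2 hIQ h (hc I (Finset.mem_insert_self I R)) hL
    have h2 := ih (insert I Q) (L + (n - 2)) h1 ?_ (fun J hJ => hc J (Finset.mem_insert_of_mem hJ)) (by omega)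
    · rw [Finset.card_insert_of_notMem hIR]
      have h3 : Q ∪ insert I R = insert I Q ∪ R := by
        ext J; simp only [Finset.mem_union, Finset.mem_insert]; tauto
      rw [h3]
      have h4 : L + ((R.card + 1 : ℕ) : ℤ) * (n - 2) = L + (n - 2) + R.card * (n - 2) := by push_cast; ring
      rw [h4]
      exact h2
    · rw [Finset.disjoint_left] at hd ⊢
      intro J hJ hJR
      rcases Finset.mem_insert.mp hJ with rfl | hJ
      · exact hIR hJR
      · exact hd hJ (Finset.mem_insert_of_mem hJR)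

lemma le_choose {d : ℕ} : ∀ {i : ℕ}, 1 ≤ i → i < d → d ≤ d.choose i := by
  induction d with
  | zero => intro i _ h; omega
  | succ d ih =>
    intro i h1 h2
    obtain ⟨k, rfl⟩ : ∃ k, i = k + 1 := ⟨i - 1, by omega⟩
    rw [Nat.choose_succ_succ']
    rcases Nat.eq_zero_or_pos k with rfl | hk
    · simp
    · by_cases h3 : k + 1 < d
      · have h4 := ih (i := k + 1) (by omega) h3
        have h5 : 0 < d.choose k := Nat.choose_pos (by omega)
        omega
      · obtain rfl : d = k + 1 := by omega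
        simp

/-- the index sets with at least one and at most `i` elements -/
def Lev (d i : ℕ) : Finset (Finset (Fin d)) := Finset.univ.filter (fun I => 1 ≤ I.card ∧ I.card ≤ i)

lemma Lev_succ (d i : ℕ) : Lev d (i + 1) = Lev d i ∪ Finset.powersetCard (i + 1) Finset.univ := by
  ext I
  simp only [Lev, Finset.mem_filter, Finset.mem_univ, true_and, Finset.mem_union, Finset.mem_powersetCard,
    Finset.subset_univ]
  omega

lemma Lev_disj (d i : ℕ) : Disjoint (Lev d i) (Finset.powersetCard (i + 1) Finset.univ) := by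
  rw [Finset.disjoint_left]
  intro I h1 h2
  simp only [Lev, Finset.mem_filter, Finset.mem_univ, true_and, Finset.mem_powersetCard,
    Finset.subset_univ] at h1 h2
  omega

lemma reach_levels {n d : ℕ} (hn : Even n) (hn2 : 2 ≤ n) (hd : n ≤ d) {t : ℕ → ℤ}
    (h1 : ∀ i ≤ d, t i ∈ Sums n i) (h2 : ∀ i ≤ d, 0 ≤ t i) (h3 : ∀ i < d, t (i + 1) ≤ n * t i) :
    ∀ i, 1 ≤ i → i ≤ d → ∃ L : ℤ, 0 ≤ L ∧ Reach (SS n d (Lev d i)) L ∧ (i < d → t (i + 1) ≤ L) := by
  intro i hi
  induction i, hi using Nat.le_induction with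
  | base =>
    intro hid
    refine ⟨1 + d * (n - 2), ?_, ?_, ?_⟩
    · have : (0 : ℤ) ≤ d * (n - 2) := mul_nonneg (by omega) (by omega)
      omega
    · have h4 : Reach (SS n d (Lev d 0)) 1 := by
        intro s hs
        refine ⟨0, ⟨fun _ => 0, ?_, by simp⟩, by simpa using hs⟩
        intro I hI
        simp only [Lev, Finset.mem_filter] at hI
        omega
      have h5 := reach_even_union hn hn2 (Finset.powersetCard (0 + 1) Finset.univ) _ _ h4 (Lev_disj d 0)
        (fun I hI => (Finset.mem_powersetCard.mp hI).2) le_rfl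
      rw [← Lev_succ] at h5
      simpa using h5
    · intro h
      have h4 := h3 1 h
      have h5 := Sums_one_le hn2 (h1 1 hid)
      have h6 := (abs_le.mp h5).2
      have h7 : (n : ℤ) * t 1 ≤ n * (n - 2) := mul_le_mul_of_nonneg_left h6 (by omega)
      have h8 : (n : ℤ) * (n - 2) ≤ d * (n - 2) := mul_le_mul_of_nonneg_right (by omega) (by omega)
      omega
  | succ i hi ih =>
    intro hid
    obtain ⟨L, hL0, hL, hLt⟩ := ih (by omega)
    have h4 := reach_pm_union (h1 (i + 1) hid) (h2 (i + 1) hid) (Finset.powersetCard (i + 1) Finset.univ) _ _ hL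
      (Lev_disj d i) (fun I hI => (Finset.mem_powersetCard.mp hI).2) (hLt (by omega))
    rw [← Lev_succ] at h4
    refine ⟨_, ?_, h4, ?_⟩
    · have : 0 ≤ ((Finset.powersetCard (i + 1) (Finset.univ : Finset (Fin d))).card : ℤ) * t (i + 1) :=
        mul_nonneg (by omega) (h2 _ hid)
      omega
    · intro h
      have h5 := h3 (i + 1) h
      have h6 : d ≤ d.choose (i + 1) := le_choose (by omega) h
      have h7 : (n : ℤ) * t (i + 1) ≤ (d.choose (i + 1) : ℤ) * t (i + 1) :=
        mul_le_mul_of_nonneg_right (by exact_mod_cast hd.trans h6) (h2 _ hid)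
      rw [Finset.card_powersetCard, Finset.card_univ, Fintype.card_fin]
      omega

/-- the compensation lemma -/
theorem balance {n d : ℕ} (hn : Even n) (hn2 : 2 ≤ n) (hd : n ≤ d) {c : (Fin d → Fin n) → Bool} (hc : Proper c) :
    ∃ a : Finset (Fin d) → ℤ, (∀ I, I.Nonempty → a I ∈ Sums n I.card) ∧
      ∑ I ∈ Finset.univ.erase ∅, a I = 0 := by
  obtain ⟨t, h1, h2, h3⟩ := exists_chain c hc
  obtain ⟨L, hL0, hL, -⟩ := reach_levels hn hn2 hd h1 h2 h3 d (by omega) le_rfl
  obtain ⟨s, ⟨a, ha, rfl⟩, hs⟩ := hL 0 (by simpa using hL0)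
  have hLev : Lev d d = Finset.univ.erase ∅ := by
    ext I
    simp only [Lev, Finset.mem_filter, Finset.mem_univ, true_and, Finset.mem_erase, and_true]
    rw [Finset.one_le_card, Finset.nonempty_iff_ne_empty]
    constructor
    · intro h; exact h.1
    · intro h
      refine ⟨h, ?_⟩
      simpa using Finset.card_le_univ I
  refine ⟨a, ?_, ?_⟩
  · intro I hI
    apply ha
    rw [hLev]
    simpa using hI.ne_empty
  · rw [hLev] at hs ha
    have h5 : Even (∑ I ∈ Finset.univ.erase ∅, a I) := by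
      apply Finset.even_sum
      intro I hI
      apply Sums_even hn _ (ha I hI)
      rw [Finset.one_le_card, Finset.nonempty_iff_ne_empty]
      exact (Finset.mem_erase.mp hI).1
    rw [zero_add] at hs
    obtain ⟨k, hk⟩ := h5
    have := abs_le.mp hs
    omega

end Pool.HJI
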