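import Mathlib

set_option autoImplicit false

/-!
# Geometric lines, proper colourings, sections, transport
-/

namespace Pool.HJI

/-- `P 0, …, P (n-1)` are the consecutive points of a geometric line of `[n]^ι` -/
def IsLine {ι : Type} {n : ℕ} (P : Fin n → ι → Fin n) : Prop :=
  (∀ i, (∀ j j', P j i = P j' i) ∨ (∀ j, P j i = j) ∨ (∀ j, P j i = j.rev)) ∧
  ∃ i, ∃ j j', P j i ≠ P j' i

/-- no geometric line is monochromatic -/
def Proper {ι : Type} {n : ℕ} (c : (ι → Fin n) → Bool) : Prop :=
  ∀ P : Fin n → ι → Fin n, IsLine P → ∃ j j', c (P j) ≠ c (P j')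

/-- colours as signs -/
def sg (b : Bool) : ℤ := if b then 1 else -1

@[simp] lemma sg_true : sg true = 1 := rfl
@[simp] lemma sg_false : sg false = -1 := rfl
@[simp] lemma sg_not (b : Bool) : sg (!b) = -sg b := by cases b <;> rfl
lemma sg_xor (a b : Bool) : sg (a ^^ b) = -(sg a * sg b) := by cases a <;> cases b <;> rfl

/-- the signed sum of a colouring -/
def S {X : Type} [Fintype X] (c : X → Bool) : ℤ := ∑ x, sg (c x)

lemma S_not {X : Type} [Fintype X] (c : X → Bool) : S (fun x => !c x) = -S c := by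
  simp [S]

lemma S_equiv {X Y : Type} [Fintype X] [Fintype Y] (e : X ≃ Y) (c : Y → Bool) :
    S (fun x => c (e x)) = S c := by
  unfold S
  exact Equiv.sum_comp e (fun y => sg (c y))

lemma S_anti {X : Type} [Fintype X] (e : X ≃ X) (c : X → Bool) (h : ∀ x, c (e x) = !c x) : S c = 0 := by
  have h1 := S_equiv e c
  have h2 : S (fun x => c (e x)) = -S c := by
    rw [← S_not]
    congr 1
    funext x
    exact h x
  omega

lemma S_parity {X : Type} [Fintype X] (c : X → Bool) : (S c - (Fintype.card X : ℤ)) % 2 = 0 := by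
  have : S c - (Fintype.card X : ℤ) = ∑ x, (sg (c x) - 1) := by
    simp [S, Finset.sum_sub_distrib]
  rw [this]
  have h2 : (2 : ℤ) ∣ ∑ x, (sg (c x) - 1) := by
    apply Finset.dvd_sum
    intro x _
    cases c x <;> simp [sg]
  omega

lemma abs_S_le {X : Type} [Fintype X] (c : X → Bool) : |S c| ≤ Fintype.card X := by
  unfold S
  refine (Finset.abs_sum_le_sum_abs _ _).trans ?_
  have : ∀ x ∈ (Finset.univ : Finset X), |sg (c x)| ≤ 1 := by
    intro x _
    cases c x <;> simp [sg]
  refine (Finset.sum_le_sum this).trans ?_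
  simp

lemma proper_not {ι : Type} {n : ℕ} {c : (ι → Fin n) → Bool} (h : Proper c) : Proper (fun x => !c x) := by
  intro P hP
  obtain ⟨j, j', hj⟩ := h P hP
  exact ⟨j, j', by simpa using hj⟩

lemma proper_equiv {ι κ : Type} {n : ℕ} (σ : ι ≃ κ) {c : (ι → Fin n) → Bool} (h : Proper c) :
    Proper (fun x : κ → Fin n => c (fun i => x (σ i))) := by
  intro P hP
  have hQ : IsLine (fun j i => P j (σ i)) := by
    refine ⟨fun i => hP.1 (σ i), ?_⟩
    obtain ⟨i, j, j', hj⟩ := hP.2
    exact ⟨σ.symm i, j, j', by simpa using hj⟩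
  exact h _ hQ

/-- the sums of the proper colourings of `[n]^i` -/
def Sums (n i : ℕ) : Set ℤ := {s | ∃ c : (Fin i → Fin n) → Bool, Proper c ∧ S c = s}

lemma Sums_neg {n i : ℕ} {s : ℤ} (h : s ∈ Sums n i) : -s ∈ Sums n i := by
  obtain ⟨c, hc, hs⟩ := h
  exact ⟨fun x => !c x, proper_not hc, by rw [S_not, hs]⟩

lemma Sums_transport {n i : ℕ} {s : ℤ} (h : s ∈ Sums n i) {ι : Type} [Fintype ι] [DecidableEq ι]
    (hι : Fintype.card ι = i) : ∃ c : (ι → Fin n) → Bool, Proper c ∧ S c = s := by
  obtain ⟨c, hc, hs⟩ := h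
  have σ : Fin i ≃ ι := (Fintype.equivFinOfCardEq hι).symm
  refine ⟨fun x => c (fun k => x (σ k)), proper_equiv σ hc, ?_⟩
  rw [← hs]
  exact S_equiv (Equiv.arrowCongr σ.symm (Equiv.refl (Fin n))) c

/-- sections -/
lemma proper_section {n i : ℕ} {c : (Fin (i + 1) → Fin n) → Bool} (h : Proper c) (a : Fin n) :
    Proper (fun y : Fin i → Fin n => c (Fin.cons a y)) := by
  intro P hP
  have hQ : IsLine (fun j => (Fin.cons a (P j) : Fin (i + 1) → Fin n)) := by
    refine ⟨?_, ?_⟩
    · intro k
      refine Fin.cases ?_ ?_ k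
      · left; intro j j'; simp
      · intro k'
        simpa using hP.1 k'
    · obtain ⟨k, j, j', hj⟩ := hP.2
      exact ⟨k.succ, j, j', by simpa using hj⟩
  exact h _ hQ

lemma S_cons {n i : ℕ} (c : (Fin (i + 1) → Fin n) → Bool) :
    S c = ∑ a : Fin n, S (fun y : Fin i → Fin n => c (Fin.cons a y)) := by
  have h := S_equiv (Fin.consEquiv (fun _ : Fin (i + 1) => Fin n)) c
  rw [← h]
  unfold S
  rw [Fintype.sum_prod_type]
  rfl

lemma exists_section {n i : ℕ} {c : (Fin (i + 1) → Fin n) → Bool} (h : Proper c) :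
    ∃ c' : (Fin i → Fin n) → Bool, Proper c' ∧ |S c| ≤ n * |S c'| := by
  rcases Nat.eq_zero_or_pos n with rfl | hn
  · refine ⟨fun _ => true, ?_, ?_⟩
    · intro P hP
      obtain ⟨_, j, _⟩ := hP.2
      exact j.elim0
    · rw [S_cons]; simp
  have : Nonempty (Fin n) := ⟨⟨0, hn⟩⟩
  obtain ⟨a, _, ha⟩ := Finset.exists_max_image (Finset.univ : Finset (Fin n))
    (fun a => |S (fun y : Fin i → Fin n => c (Fin.cons a y))|) Finset.univ_nonempty
  refine ⟨_, proper_section h a, ?_⟩
  rw [S_cons]
  refine (Finset.abs_sum_le_sum_abs _ _).trans ?_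
  refine (Finset.sum_le_sum ha).trans ?_
  simp

/-- a chain of sections -/
lemma exists_chain_aux {n : ℕ} : ∀ (d : ℕ) (c : (Fin d → Fin n) → Bool), Proper c →
    ∃ t : ℕ → ℤ, t d = |S c| ∧ (∀ i ≤ d, t i ∈ Sums n i) ∧ (∀ i ≤ d, 0 ≤ t i) ∧
      ∀ i < d, t (i + 1) ≤ n * t i := by
  intro d
  induction d with
  | zero =>
    intro c hc
    refine ⟨fun _ => |S c|, rfl, ?_, ?_, ?_⟩
    · intro i hi
      obtain rfl : i = 0 := by omega
      rcases abs_choice (S c) with h | h
      · rw [h]; exact ⟨c, hc, rfl⟩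
      · rw [h]; exact Sums_neg ⟨c, hc, rfl⟩
    · intro i _; exact abs_nonneg _
    · intro i hi; omega
  | succ d ih =>
    intro c hc
    obtain ⟨c', hc', hs⟩ := exists_section hc
    obtain ⟨t, h0, h1, h2, h3⟩ := ih c' hc'
    refine ⟨fun i => if i = d + 1 then |S c| else t i, by simp, ?_, ?_, ?_⟩
    · intro i hi
      by_cases h : i = d + 1
      · subst h
        simp only [if_true]
        rcases abs_choice (S c) with h | h
        · rw [h]; exact ⟨c, hc, rfl⟩
        · rw [h]; exact Sums_neg ⟨c, hc, rfl⟩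
      · simp only [h, if_false]
        exact h1 i (by omega)
    · intro i hi
      by_cases h : i = d + 1
      · simp [h]
      · simp only [h, if_false]
        exact h2 i (by omega)
    · intro i hi
      by_cases h : i = d
      · subst h
        simp [h0, hs]
      · have h4 : ¬ (i = d + 1) := by omega
        have h5 : ¬ (i + 1 = d + 1) := by omega
        simp only [h4, h5, if_false]
        exact h3 i (by omega)

lemma exists_chain {n d : ℕ} (c : (Fin d → Fin n) → Bool) (h : Proper c) :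
    ∃ t : ℕ → ℤ, (∀ i ≤ d, t i ∈ Sums n i) ∧ (∀ i ≤ d, 0 ≤ t i) ∧
      ∀ i < d, t (i + 1) ≤ n * t i := by
  obtain ⟨t, -, h⟩ := exists_chain_aux d c h
  exact ⟨t, h⟩

/-- every sum in positive dimension is even if `n` is even -/
lemma Sums_even {n i : ℕ} (hn : Even n) (hi : 1 ≤ i) {s : ℤ} (h : s ∈ Sums n i) : Even s := by
  obtain ⟨c, -, rfl⟩ := h
  have h1 := S_parity c
  have h2 : Even (Fintype.card (Fin i → Fin n)) := by
    simp only [Fintype.card_fun, Fintype.card_fin]
    exact hn.pow_of_ne_zero (by omega)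
  obtain ⟨k, hk⟩ := h2
  rw [hk] at h1
  push_cast at h1
  exact Int.even_iff.mpr (by omega)

/-- the threshold colourings of the one-dimensional cube -/
lemma Sums_one {n : ℕ} {e : ℤ} (hn : Even n) (he : Even e) (h : |e| + 2 ≤ n) : e ∈ Sums n 1 := by
  obtain ⟨m, hm⟩ := hn
  obtain ⟨f, hf⟩ := he
  have hfm : |f| + 1 ≤ m := by
    have : |e| = 2 * |f| := by rw [hf, ← two_mul, abs_mul]; simp
    omega
  have hf1 := (abs_le.mp (show |f| ≤ (m : ℤ) - 1 by omega))
  -- number of true points : m + f
  set k : ℕ := (m + f).toNat with hk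
  have hk' : (k : ℤ) = m + f := by rw [hk]; exact Int.toNat_of_nonneg (by omega)
  have hk1 : 1 ≤ k := by omega
  have hkn : k < n := by omega
  refine ⟨fun x => decide ((x 0 : ℕ) < k), ?_, ?_⟩
  · intro P hP
    have h0 : (∀ j, P j 0 = j) ∨ (∀ j, P j 0 = j.rev) := by
      rcases hP.1 0 with h | h | h
      · exfalso
        obtain ⟨i, j, j', hj⟩ := hP.2
        obtain rfl : i = 0 := Subsingleton.elim _ _
        exact hj (h j j')
      · exact Or.inl h
      · exact Or.inr h
    refine ⟨⟨0, by omega⟩, ⟨n - 1, by omega⟩, ?_⟩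
    rcases h0 with h | h
    · have h1 : 0 < k := by omega
      have h2 : ¬ (n - 1 < k) := by omega
      simp [h, h1, h2]
    · have h1 : 0 < k := by omega
      have h2 : ¬ (n - 1 < k) := by omega
      have h3 : (n - (n - 1 + 1)) < k := by omega
      simp [h, Fin.val_rev, h2, h3]
  · have h1 := S_equiv (Equiv.funUnique (Fin 1) (Fin n)) (fun a : Fin n => decide ((a : ℕ) < k))
    have h2 : S (fun x : Fin 1 → Fin n => decide ((x 0 : ℕ) < k)) = S (fun a : Fin n => decide ((a : ℕ) < k)) := h1
    rw [h2]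
    unfold S
    rw [Fin.sum_univ_eq_sum_range (fun a => sg (decide (a < k))) n]
    have h3 : Finset.range n = Finset.range k ∪ Finset.Ico k n := by
      ext a; simp; omega
    rw [h3, Finset.sum_union]
    · have h4 : ∑ x ∈ Finset.range k, sg (decide (x < k)) = ∑ x ∈ Finset.range k, 1 := by
        apply Finset.sum_congr rfl
        intro x hx
        simp [Finset.mem_range.mp hx]
      have h5 : ∑ x ∈ Finset.Ico k n, sg (decide (x < k)) = ∑ x ∈ Finset.Ico k n, (-1) := by
        apply Finset.sum_congr rfl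
        intro x hx
        have h6 : ¬ (x < k) := by
          have := (Finset.mem_Ico.mp hx).1
          omega
        rw [decide_eq_false h6]
        rfl
      rw [h4, h5]
      simp
      rw [Nat.cast_sub hkn.le]
      omega
    · rw [Finset.disjoint_left]
      intro a ha hb
      simp at ha hb
      omega

/-- in dimension one a proper colouring has both colours -/
lemma Sums_one_le {n : ℕ} (hn : 2 ≤ n) {s : ℤ} (h : s ∈ Sums n 1) : |s| ≤ n - 2 := by
  obtain ⟨c, hc, rfl⟩ := h
  have h1 := S_equiv (Equiv.funUnique (Fin 1) (Fin n)) (fun a : Fin n => c (fun _ => a))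
  have h2 : S c = S (fun a : Fin n => c (fun _ => a)) := by
    rw [← h1]
    congr 1
    funext x
    congr 1
    funext i
    have : i = 0 := Subsingleton.elim _ _
    subst this
    rfl
  rw [h2]
  obtain ⟨j, j', hj⟩ := hc (fun j _ => j) ⟨fun i => Or.inr (Or.inl fun _ => rfl),
    ⟨0, ⟨0, by omega⟩, ⟨1, by omega⟩, by simp⟩⟩
  have hne : j ≠ j' := fun h => hj (by rw [h])
  unfold S
  rw [← Finset.add_sum_erase _ _ (Finset.mem_univ j),
    ← Finset.add_sum_erase _ _ (show j' ∈ Finset.univ.erase j by simp [hne.symm])]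
  have h3 : sg (c fun _ => j) + sg (c fun _ => j') = 0 := by
    cases h4 : c (fun _ => j) <;> cases h5 : c (fun _ => j') <;> simp_all
  have h6 : |∑ x ∈ (Finset.univ.erase j).erase j', sg (c fun _ => x)| ≤ n - 2 := by
    refine (Finset.abs_sum_le_sum_abs _ _).trans ?_
    have : ∀ x ∈ (Finset.univ.erase j).erase j', |sg (c fun _ => x)| ≤ 1 := by
      intro x _
      cases (c fun _ => x) <;> simp [sg]
    refine (Finset.sum_le_sum this).trans ?_
    have hcard : ((Finset.univ.erase j).erase j').card = n - 1 - 1 := by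
      rw [Finset.card_erase_of_mem (show j' ∈ Finset.univ.erase j by simp [hne.symm]),
        Finset.card_erase_of_mem (Finset.mem_univ j)]
      simp
    simp only [Finset.sum_const, hcard, nsmul_eq_mul, mul_one]
    omega
  have h7 : sg (c fun _ => j) + (sg (c fun _ => j') + ∑ x ∈ (Finset.univ.erase j).erase j', sg (c fun _ => x))
      = ∑ x ∈ (Finset.univ.erase j).erase j', sg (c fun _ => x) := by linarith
  rw [h7]
  exact h6

end Pool.HJI
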