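import Pool.Agent.HJI.Odd

set_option autoImplicit false

/-!
# Halving proper colourings of the cubes with an even side
-/

namespace Pool.HJI

/-- merge the two middle values -/
def mrg (B : ℕ) (j : Fin (2 * B + 2)) : Fin (2 * B + 1) :=
  if h : (j : ℕ) ≤ B then ⟨j, by omega⟩ else ⟨j - 1, by omega⟩

/-- a section of `mrg` -/
def lft (B : ℕ) (j : Fin (2 * B + 1)) : Fin (2 * B + 2) :=
  if (j : ℕ) ≤ B then ⟨j, by omega⟩ else ⟨j + 1, by omega⟩

lemma mrg_val (B : ℕ) (j : Fin (2 * B + 2)) : (mrg B j : ℕ) = if (j : ℕ) ≤ B then (j : ℕ) else j - 1 := by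
  unfold mrg
  split_ifs <;> rfl

lemma mrg_lft (B : ℕ) (j : Fin (2 * B + 1)) : mrg B (lft B j) = j := by
  unfold mrg lft
  by_cases h : (j : ℕ) ≤ B
  · simp [h]
  · have h2 : ¬ ((j : ℕ) + 1 ≤ B) := by omega
    simp [h, h2]

lemma mrg_rev (B : ℕ) (j : Fin (2 * B + 2)) : mrg B j.rev = (mrg B j).rev := by
  have hj := j.2
  ext
  rw [Fin.val_rev, mrg_val, mrg_val, Fin.val_rev]
  split_ifs <;> omega

theorem even_main {B d : ℕ} (hB : 1 ≤ B) (h : ∃ c : (Fin d → Fin (2 * B + 1)) → Bool, Proper c) :
    ∃ C : (Fin (d + 1) → Fin (2 * B + 2)) → Bool, Proper C ∧ S C = 0 := by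
  obtain ⟨g, hg⟩ := h
  set u : Fin (2 * B + 2) := ⟨B, by omega⟩ with hu
  set v : Fin (2 * B + 2) := ⟨B + 1, by omega⟩ with hv
  have huv : u.rev = v := by ext; simp only [hu, hv, Fin.val_rev]; omega
  have hvu : v.rev = u := by ext; simp only [hu, hv, Fin.val_rev]; omega
  have hm : mrg B u = mrg B v := by
    ext; simp [mrg, hu, hv]
  have hnu : ¬ (u < u) := lt_irrefl _
  have hvv : u < v := by simp [Fin.lt_def, hu, hv]
  refine ⟨fun x => (g (fun i => mrg B (Fin.tail x i)) ^^ decide (u < x 0)), ?_, ?_⟩
  · intro P hP
    -- the two middle points have the same merged tail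
    have htail : (fun i => mrg B (Fin.tail (P u) i)) = (fun i => mrg B (Fin.tail (P v) i)) := by
      funext i
      show mrg B (P u i.succ) = mrg B (P v i.succ)
      rcases hP.1 i.succ with h | h | h
      · rw [h u v]
      · rw [h, h, hm]
      · rw [h, h, mrg_rev, mrg_rev, hm]
    rcases hP.1 0 with h0 | h0 | h0
    · by_cases hn : ∃ i : Fin d, ∃ j j', Fin.tail (P j) i ≠ Fin.tail (P j') i
      · have hQ : IsLine (fun (j : Fin (2 * B + 1)) (i : Fin d) => mrg B (Fin.tail (P (lft B j)) i)) := by
          refine ⟨?_, ?_⟩
          · intro i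
            rcases hP.1 i.succ with h | h | h
            · left
              intro j j'
              show mrg B (P (lft B j) i.succ) = mrg B (P (lft B j') i.succ)
              rw [h (lft B j) (lft B j')]
            · right; left
              intro j
              show mrg B (P (lft B j) i.succ) = j
              rw [h, mrg_lft]
            · right; right
              intro j
              show mrg B (P (lft B j) i.succ) = j.rev
              rw [h, mrg_rev, mrg_lft]
          · obtain ⟨i, j, j', hj⟩ := hn
            refine ⟨i, ⟨0, by omega⟩, ⟨1, by omega⟩, ?_⟩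
            show mrg B (P (lft B _) i.succ) ≠ mrg B (P (lft B _) i.succ)
            rcases hP.1 i.succ with h | h | h
            · exact absurd (h j j') hj
            · rw [h, h, mrg_lft, mrg_lft]
              simp
            · rw [h, h, mrg_rev, mrg_rev, mrg_lft, mrg_lft]
              intro h2
              have h3 := Fin.rev_injective h2
              simp at h3
        obtain ⟨j, j', hj⟩ := hg _ hQ
        refine ⟨lft B j, lft B j', ?_⟩
        beta_reduce
        rw [h0 (lft B j) (lft B j')]
        intro h1
        exact hj (Bool.xor_left_inj.mp h1)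
      · push Not at hn
        exfalso
        obtain ⟨i, j, j', hj⟩ := hP.2
        refine Fin.cases (motive := fun i => P j i ≠ P j' i → False) ?_ ?_ i hj
        · intro h; exact h (h0 j j')
        · intro k h; exact h (hn k j j')
    · refine ⟨u, v, ?_⟩
      beta_reduce
      rw [htail, h0, h0]
      simp only [hnu, hvv, decide_true, decide_false]
      simp
    · refine ⟨u, v, ?_⟩
      beta_reduce
      rw [htail, h0, h0, huv, hvu]
      simp only [hnu, hvv, decide_true, decide_false]
      simp
  · rw [S_cons]
    set T : ℤ := S (fun y : Fin d → Fin (2 * B + 2) => g (fun i => mrg B (y i))) with hT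
    have h1 : ∀ a : Fin (2 * B + 2), S (fun y : Fin d → Fin (2 * B + 2) =>
        (g (fun i => mrg B (Fin.tail (Fin.cons a y : Fin (d + 1) → Fin (2 * B + 2)) i)) ^^
          decide (u < (Fin.cons a y : Fin (d + 1) → Fin (2 * B + 2)) 0))) =
        (if u < a then -T else T) := by
      intro a
      simp only [Fin.tail_cons, Fin.cons_zero]
      by_cases hb : u < a
      · simp only [hb, decide_true, Bool.xor_true, if_true]
        exact S_not _
      · simp only [hb, decide_false, Bool.xor_false, if_false]
        rfl
    rw [Finset.sum_congr rfl (fun a _ => h1 a)]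
    set F : Fin (2 * B + 2) → ℤ := fun a => if u < a then -T else T with hF
    have h2 : ∑ a, F (Fin.revPerm a) = ∑ a, F a := Equiv.sum_comp Fin.revPerm F
    have h3 : ∀ a, F (Fin.revPerm a) = -F a := by
      intro a
      simp only [hF, Fin.revPerm_apply]
      have h5 : (u < a.rev) ↔ ¬ (u < a) := by
        have := a.2
        simp only [Fin.lt_def, hu, Fin.val_rev]
        omega
      by_cases hb : u < a
      · simp [h5, hb]
      · simp [h5, hb]
    rw [Finset.sum_congr rfl (fun a _ => h3 a), Finset.sum_neg_distrib] at h2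
    show ∑ a, F a = 0
    omega

end Pool.HJI
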