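import Pool.Agent.HJI.Assemble

set_option autoImplicit false

/-!
# Halving proper colourings of the cubes with an odd side
-/

namespace Pool.HJI

/-- the cases of a geometric line of `[n]^(d+1)` -/
lemma tail_cases {n d : ℕ} {P : Fin n → Fin (d + 1) → Fin n} (hP : IsLine P) :
    IsLine (fun j => Fin.tail (P j)) ∨
      ((∀ j j', Fin.tail (P j) = Fin.tail (P j')) ∧ ((∀ j, P j 0 = j) ∨ (∀ j, P j 0 = j.rev))) := by
  by_cases h : ∃ i : Fin d, ∃ j j', Fin.tail (P j) i ≠ Fin.tail (P j') i
  · left
    exact ⟨fun i => hP.1 i.succ, h⟩
  · right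
    push Not at h
    refine ⟨fun j j' => funext fun i => h i j j', ?_⟩
    obtain ⟨i, j, j', hj⟩ := hP.2
    have hi : i = 0 := by
      by_contra hi
      obtain ⟨k, rfl⟩ := Fin.exists_succ_eq.mpr hi
      exact hj (h k j j')
    subst hi
    rcases hP.1 0 with h0 | h0 | h0
    · exact absurd (h0 j j') hj
    · exact Or.inl h0
    · exact Or.inr h0

lemma sum_ge_mid (B : ℕ) : ∑ a : Fin (2 * B + 1), sg (decide (mid B ≤ a)) = 1 := by
  have h1 : ∀ a : Fin (2 * B + 1), sg (decide (mid B ≤ a)) = (fun x : ℕ => if B ≤ x then (1 : ℤ) else -1) a := by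
    intro a
    have : (mid B ≤ a) ↔ B ≤ (a : ℕ) := by simp [Fin.le_def, mid]
    by_cases h : B ≤ (a : ℕ)
    · simp [this, h]
    · simp only [this, h, if_false, decide_false, sg_false]
  rw [Finset.sum_congr rfl (fun a _ => h1 a)]
  rw [Fin.sum_univ_eq_sum_range (fun x : ℕ => if B ≤ x then (1 : ℤ) else -1) (2 * B + 1)]
  have h3 : Finset.range (2 * B + 1) = Finset.range B ∪ Finset.Ico B (2 * B + 1) := by
    ext a; simp; omega
  rw [h3, Finset.sum_union]
  · have h4 : ∑ x ∈ Finset.range B, (if B ≤ x then (1 : ℤ) else -1) = ∑ x ∈ Finset.range B, (-1) := by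
      apply Finset.sum_congr rfl
      intro x hx
      have : ¬ (B ≤ x) := by have := Finset.mem_range.mp hx; omega
      simp [this]
    have h5 : ∑ x ∈ Finset.Ico B (2 * B + 1), (if B ≤ x then (1 : ℤ) else -1) =
        ∑ x ∈ Finset.Ico B (2 * B + 1), 1 := by
      apply Finset.sum_congr rfl
      intro x hx
      simp [(Finset.mem_Ico.mp hx).1]
    rw [h4, h5]
    simp
    omega
  · rw [Finset.disjoint_left]
    intro a ha hb
    simp at ha hb
    omega

/-- one more dimension -/
theorem lift_odd {B d : ℕ} (hB : 1 ≤ B) {C : (Fin d → Fin (2 * B + 1)) → Bool}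
    (hC : ∀ P : Fin (2 * B + 1) → Fin d → Fin (2 * B + 1), IsLine P →
        ∃ j j' : Fin (2 * B), C (P (emb B j)) ≠ C (P (emb B j')))
    (hS : S C = sg (C (fun _ => mid B))) :
    ∃ C' : (Fin (d + 1) → Fin (2 * B + 1)) → Bool, Proper C' ∧ S C' = 1 := by
  classical
  set z : Fin d → Fin (2 * B + 1) := fun _ => mid B with hz
  have h0mid : (⟨0, by omega⟩ : Fin (2 * B + 1)) ≠ mid B := by
    intro h
    have := congrArg Fin.val h
    simp [mid] at this
    omega
  refine ⟨fun x => if Fin.tail x = z then decide (mid B ≤ x 0) else
    if x 0 = mid B then !C (Fin.tail x) else C (Fin.tail x), ?_, ?_⟩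
  · intro P hP
    rcases tail_cases hP with hT | ⟨hT, h0⟩
    · obtain ⟨j, j', hj⟩ := hC _ hT
      have hne : ∀ k : Fin (2 * B), Fin.tail (P (emb B k)) ≠ z := by
        intro k hk
        obtain ⟨i, l, l', hl⟩ := hT.2
        have hki := congrFun hk i
        rcases hT.1 i with h | h | h
        · exact hl (h l l')
        · have h2 : Fin.tail (P (emb B k)) i = emb B k := h (emb B k)
          rw [h2] at hki
          exact emb_ne B k hki
        · have h2 : Fin.tail (P (emb B k)) i = (emb B k).rev := h (emb B k)
          rw [h2, rev_emb] at hki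
          exact emb_ne B _ hki
      refine ⟨emb B j, emb B j', ?_⟩
      simp only [hne, if_false]
      rcases hP.1 0 with h | h | h
      · rw [h (emb B j) (emb B j')]
        by_cases hm : P (emb B j') 0 = mid B
        · simpa [hm] using hj
        · simpa [hm] using hj
      · have h1 : P (emb B j) 0 ≠ mid B := by rw [h]; exact emb_ne B _
        have h2 : P (emb B j') 0 ≠ mid B := by rw [h]; exact emb_ne B _
        simp only [h1, h2, if_false]
        exact hj
      · have h1 : P (emb B j) 0 ≠ mid B := by rw [h, rev_emb]; exact emb_ne B _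
        have h2 : P (emb B j') 0 ≠ mid B := by rw [h, rev_emb]; exact emb_ne B _
        simp only [h1, h2, if_false]
        exact hj
    · by_cases hc : Fin.tail (P (mid B)) = z
      · refine ⟨⟨0, by omega⟩, ⟨2 * B, by omega⟩, ?_⟩
        beta_reduce
        rw [hT ⟨0, by omega⟩ (mid B), hT ⟨2 * B, by omega⟩ (mid B)]
        simp only [hc, if_true]
        have h1 : ¬ (mid B ≤ (⟨0, by omega⟩ : Fin (2 * B + 1))) := by
          simp only [Fin.le_def, mid]; omega
        have h2 : mid B ≤ (⟨2 * B, by omega⟩ : Fin (2 * B + 1)) := by
          simp only [Fin.le_def, mid]; omega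
        rcases h0 with h | h
        · rw [h, h]; simp only [h1, h2, decide_true, decide_false]; simp
        · have h3 : ¬ (mid B ≤ (⟨2 * B, by omega⟩ : Fin (2 * B + 1)).rev) := by
            simp only [Fin.le_def, mid, Fin.val_rev]; omega
          have h4 : mid B ≤ (⟨0, by omega⟩ : Fin (2 * B + 1)).rev := by
            simp only [Fin.le_def, mid, Fin.val_rev]; omega
          rw [h, h]; simp only [h3, h4, decide_true, decide_false]; simp
      · refine ⟨⟨0, by omega⟩, mid B, ?_⟩
        beta_reduce
        rw [hT ⟨0, by omega⟩ (mid B)]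
        simp only [hc, if_false]
        have h1 : P (mid B) 0 = mid B := by
          rcases h0 with h | h
          · exact h _
          · rw [h, rev_mid]
        have h2 : P ⟨0, by omega⟩ 0 ≠ mid B := by
          rcases h0 with h | h
          · rw [h]; exact h0mid
          · rw [h]
            intro h3
            apply h0mid
            rw [← rev_mid B] at h3
            exact Fin.rev_injective h3
        simp only [h1, h2, if_true, if_false]
        simp
  · rw [S_cons]
    unfold S
    rw [Finset.sum_comm]
    have h1 : ∀ y : Fin d → Fin (2 * B + 1),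
        ∑ a : Fin (2 * B + 1), sg (if Fin.tail (Fin.cons a y : Fin (d + 1) → Fin (2 * B + 1)) = z then
          decide (mid B ≤ (Fin.cons a y : Fin (d + 1) → Fin (2 * B + 1)) 0) else
          if (Fin.cons a y : Fin (d + 1) → Fin (2 * B + 1)) 0 = mid B then
            !C (Fin.tail (Fin.cons a y : Fin (d + 1) → Fin (2 * B + 1))) else
            C (Fin.tail (Fin.cons a y : Fin (d + 1) → Fin (2 * B + 1)))) =
        (2 * B - 1) * sg (C y) + if y = z then 1 - (2 * B - 1) * sg (C z) else 0 := by
      intro y
      simp only [Fin.tail_cons, Fin.cons_zero]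
      by_cases hy : y = z
      · subst hy
        simp only [if_true, sum_ge_mid]
        ring
      · simp only [hy, if_false]
        have h2 : ∀ a : Fin (2 * B + 1), sg (if a = mid B then !C y else C y) =
            sg (C y) + if a = mid B then -2 * sg (C y) else 0 := by
          intro a
          by_cases ha : a = mid B
          · simp only [ha, if_true, sg_not]; ring
          · simp [ha]
        rw [Finset.sum_congr rfl (fun a _ => h2 a), Finset.sum_add_distrib, Finset.sum_ite_eq']
        simp
        ring
    rw [Finset.sum_congr rfl (fun y _ => h1 y), Finset.sum_add_distrib, ← Finset.mul_sum, Finset.sum_ite_eq']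
    simp only [Finset.mem_univ, if_true]
    have h3 : ∑ y, sg (C y) = sg (C z) := hS
    rw [h3]
    ring

/-- the distance to the middle -/
def dst (B : ℕ) (x : Fin (2 * B + 1)) : ℕ := max (x : ℕ) (2 * B - x) - B

lemma dst_rev (B : ℕ) (x : Fin (2 * B + 1)) : dst B x.rev = dst B x := by
  have := x.2
  simp only [dst, Fin.val_rev]
  omega

/-- the folding colouring -/
def fold (B D : ℕ) (y : Fin D → Fin (2 * B + 1)) : Bool := decide ((∑ i, dst B (y i)) / B % 2 = 1)

lemma ap_blocks {B t s : ℕ} (hB : 1 ≤ B) (ht : 1 ≤ t) (ht2 : t ≤ 2 * B - 1)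
    (h : ∀ r ≤ B, (s + t * r) / B % 2 = s / B % 2) : False := by
  obtain ⟨q, b, hb, hs⟩ : ∃ q b, b < B ∧ s = q * B + b :=
    ⟨s / B, s % B, Nat.mod_lt _ (by omega), by rw [mul_comm]; exact (Nat.div_add_mod s B).symm⟩
  have hq : s / B = q := by
    rw [hs, mul_comm, Nat.mul_add_div (by omega), Nat.div_eq_of_lt hb]; omega
  rcases Nat.lt_or_ge t B with htB | htB
  · -- all quotients are equal
    have h1 : ∀ r ≤ B, (s + t * r) / B = q := by
      intro r
      induction r with
      | zero => intro _; simpa using hq
      | succ r ih =>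
        intro hr
        have h2 := ih (by omega)
        have h3 := h (r + 1) hr
        have h4 : s + t * (r + 1) = (s + t * r) + t := by ring
        have h5 : (s + t * (r + 1)) / B ≤ q + 1 := by
          rw [← h2, h4, ← Nat.add_div_right _ (by omega : 0 < B)]
          exact Nat.div_le_div_right (by omega)
        have h6 : q ≤ (s + t * (r + 1)) / B := by
          rw [← h2, h4]
          exact Nat.div_le_div_right (by omega)
        rw [hq] at h3
        omega
    have h2 := h1 B le_rfl
    have h3 : q + t = (s + t * B) / B := by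
      rw [Nat.add_mul_div_right _ _ (by omega : 0 < B), hq]
    omega
  · have h1 : ∀ r ≤ B, (s + t * r) / B = q + 2 * r := by
      intro r
      induction r with
      | zero => intro _; simpa using hq
      | succ r ih =>
        intro hr
        have h2 := ih (by omega)
        have h3 := h (r + 1) hr
        have h4 : s + t * (r + 1) = (s + t * r) + t := by ring
        have h5 : (s + t * (r + 1)) / B ≤ q + 2 * r + 2 := by
          have : (s + t * r + 2 * B) / B = (s + t * r) / B + 2 := by
            rw [show s + t * r + 2 * B = s + t * r + 2 * B from rfl, Nat.add_mul_div_right _ _ (by omega : 0 < B)]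
          rw [← h2, h4, ← this]
          exact Nat.div_le_div_right (by omega)
        have h6 : q + 2 * r + 1 ≤ (s + t * (r + 1)) / B := by
          rw [← h2, h4, ← Nat.add_div_right _ (by omega : 0 < B)]
          exact Nat.div_le_div_right (by omega)
        rw [hq] at h3
        omega
    have h2 := h1 B le_rfl
    have h3 : q + t = (s + t * B) / B := by
      rw [Nat.add_mul_div_right _ _ (by omega : 0 < B), hq]
    omega

/-- the folding colouring is proper in dimension at most `2B - 1` -/
lemma fold_proper {B D : ℕ} (hB : 1 ≤ B) (hD : D ≤ 2 * B - 1) : Proper (fold B D) := by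
  classical
  intro P hP
  by_contra hcon
  push Not at hcon
  set A : Finset (Fin D) := Finset.univ.filter (fun i => ¬ ∀ j j', P j i = P j' i) with hA
  have hA1 : 1 ≤ A.card := by
    rw [Finset.one_le_card]
    obtain ⟨i, j, j', hj⟩ := hP.2
    exact ⟨i, by rw [hA]; simp only [Finset.mem_filter, Finset.mem_univ, true_and]; exact fun h => hj (h j j')⟩
  have hA2 : A.card ≤ 2 * B - 1 := by
    have := Finset.card_le_univ A
    rw [Fintype.card_fin] at this
    omega
  -- the points from the middle on
  have hsum : ∀ r (hr : r ≤ B), ∑ i, dst B (P ⟨B + r, by omega⟩ i) =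
      (∑ i, dst B (P (mid B) i)) + A.card * r := by
    intro r hr
    have h1 : ∀ i, dst B (P ⟨B + r, by omega⟩ i) = dst B (P (mid B) i) + if i ∈ A then r else 0 := by
      intro i
      by_cases hi : i ∈ A
      · simp only [hi, if_true]
        have h2 : ¬ ∀ j j', P j i = P j' i := by
          rw [hA] at hi
          exact (Finset.mem_filter.mp hi).2
        rcases hP.1 i with h | h | h
        · exact absurd h h2
        · rw [h, h]
          simp only [dst, mid]
          omega
        · rw [h, h, dst_rev, dst_rev]
          simp only [dst, mid]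
          omega
      · simp only [hi, if_false, add_zero]
        have h2 : ∀ j j', P j i = P j' i := by
          rw [hA] at hi
          simp only [Finset.mem_filter, Finset.mem_univ, true_and, not_not] at hi
          exact hi
        rw [h2 _ (mid B)]
    rw [Finset.sum_congr rfl (fun i _ => h1 i), Finset.sum_add_distrib]
    congr 1
    rw [Finset.sum_ite_mem, Finset.univ_inter, Finset.sum_const, smul_eq_mul]
  apply ap_blocks (s := ∑ i, dst B (P (mid B) i)) (t := A.card) hB hA1 hA2
  intro r hr
  have h1 := hcon ⟨B + r, by omega⟩ (mid B)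
  unfold fold at h1
  rw [hsum r hr] at h1
  have h2 := decide_eq_decide.mp h1
  omega

lemma fold_pal {B D : ℕ} {P : Fin (2 * B + 1) → Fin D → Fin (2 * B + 1)}
    (hP : ∀ i, (∀ j j', P j i = P j' i) ∨ (∀ j, P j i = j) ∨ (∀ j, P j i = j.rev)) (j : Fin (2 * B + 1)) :
    fold B D (P j.rev) = fold B D (P j) := by
  unfold fold
  have h : ∑ i, dst B (P j.rev i) = ∑ i, dst B (P j i) := by
    apply Finset.sum_congr rfl
    intro i _
    rcases hP i with h | h | h
    · rw [h j.rev j]
    · rw [h, h, dst_rev]
    · rw [h, h, dst_rev]
  rw [h]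

/-- proper colourings with signed sum one in small dimension -/
theorem explicit_odd {B : ℕ} (hB : 1 ≤ B) : ∀ d ≤ 2 * B,
    ∃ C : (Fin d → Fin (2 * B + 1)) → Bool, Proper C ∧ S C = 1 := by
  intro d
  induction d with
  | zero =>
    intro _
    refine ⟨fun _ => true, ?_, ?_⟩
    · intro P hP
      obtain ⟨i, _⟩ := hP.2
      exact i.elim0
    · simp [S]
  | succ d ih =>
    intro hd
    obtain ⟨h, hh, hS⟩ := ih (by omega)
    refine ⟨fun x => if x 0 = mid B then h (Fin.tail x) else (fold B d (Fin.tail x) ^^ decide (mid B < x 0)), ?_, ?_⟩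
    · intro P hP
      rcases hP.1 0 with h0 | h0 | h0
      · have hT : IsLine (fun j => Fin.tail (P j)) := by
          rcases tail_cases hP with hT | ⟨-, hT | hT⟩
          · exact hT
          · have h1 := h0 ⟨0, by omega⟩ ⟨1, by omega⟩
            rw [hT, hT] at h1
            simp at h1
          · have h1 := h0 ⟨0, by omega⟩ ⟨1, by omega⟩
            rw [hT, hT] at h1
            have h2 := Fin.rev_injective h1
            simp at h2
        by_cases hm : P (mid B) 0 = mid B
        · obtain ⟨j, j', hj⟩ := hh _ hT
          refine ⟨j, j', ?_⟩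
          beta_reduce
          rw [h0 j (mid B), h0 j' (mid B)]
          simp only [hm, if_true]
          exact hj
        · obtain ⟨j, j', hj⟩ := fold_proper hB (by omega) _ hT
          refine ⟨j, j', ?_⟩
          beta_reduce
          rw [h0 j (mid B), h0 j' (mid B)]
          simp only [hm, if_false]
          intro h1
          exact hj (Bool.xor_left_inj.mp h1)
      · refine ⟨⟨0, by omega⟩, (⟨0, by omega⟩ : Fin (2 * B + 1)).rev, ?_⟩
        have h1 := fold_pal (B := B) (P := fun j => Fin.tail (P j)) (fun i => hP.1 i.succ) ⟨0, by omega⟩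
        beta_reduce
        rw [h0, h0]
        have h2 : ¬ ((⟨0, by omega⟩ : Fin (2 * B + 1)) = mid B) := by
          intro h; have := congrArg Fin.val h; simp [mid] at this; omega
        have h3 : ¬ ((⟨0, by omega⟩ : Fin (2 * B + 1)).rev = mid B) := by
          intro h; have := congrArg Fin.val h; simp only [mid, Fin.val_rev] at this; omega
        have h4 : ¬ (mid B < (⟨0, by omega⟩ : Fin (2 * B + 1))) := by
          simp only [Fin.lt_def, mid]; omega
        have h5 : mid B < (⟨0, by omega⟩ : Fin (2 * B + 1)).rev := by
          simp only [Fin.lt_def, mid, Fin.val_rev]; omega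
        simp only [h2, h3, if_false, h4, h5]
        rw [h1]
        cases fold B d (Fin.tail (P ⟨0, by omega⟩)) <;> simp
      · refine ⟨⟨0, by omega⟩, (⟨0, by omega⟩ : Fin (2 * B + 1)).rev, ?_⟩
        have h1 := fold_pal (B := B) (P := fun j => Fin.tail (P j)) (fun i => hP.1 i.succ) ⟨0, by omega⟩
        beta_reduce
        rw [h0, h0, Fin.rev_rev]
        have h2 : ¬ ((⟨0, by omega⟩ : Fin (2 * B + 1)) = mid B) := by
          intro h; have := congrArg Fin.val h; simp [mid] at this; omega
        have h3 : ¬ ((⟨0, by omega⟩ : Fin (2 * B + 1)).rev = mid B) := by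
          intro h; have := congrArg Fin.val h; simp only [mid, Fin.val_rev] at this; omega
        have h4 : ¬ (mid B < (⟨0, by omega⟩ : Fin (2 * B + 1))) := by
          simp only [Fin.lt_def, mid]; omega
        have h5 : mid B < (⟨0, by omega⟩ : Fin (2 * B + 1)).rev := by
          simp only [Fin.lt_def, mid, Fin.val_rev]; omega
        simp only [h2, h3, if_false, h4, h5]
        rw [h1]
        cases fold B d (Fin.tail (P ⟨0, by omega⟩)) <;> simp
    · rw [S_cons]
      have h1 : ∀ a : Fin (2 * B + 1), S (fun y : Fin d → Fin (2 * B + 1) =>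
          if (Fin.cons a y : Fin (d + 1) → Fin (2 * B + 1)) 0 = mid B then
            h (Fin.tail (Fin.cons a y : Fin (d + 1) → Fin (2 * B + 1))) else
            (fold B d (Fin.tail (Fin.cons a y : Fin (d + 1) → Fin (2 * B + 1))) ^^
              decide (mid B < (Fin.cons a y : Fin (d + 1) → Fin (2 * B + 1)) 0))) =
          (if a = mid B then 1 else 0) +
            (if a = mid B then 0 else if mid B < a then -S (fold B d) else S (fold B d)) := by
        intro a
        simp only [Fin.tail_cons, Fin.cons_zero]
        by_cases ha : a = mid B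
        · simp only [ha, if_true, add_zero]
          exact hS
        · simp only [ha, if_false, zero_add]
          by_cases hb : mid B < a
          · simp only [hb, decide_true, Bool.xor_true, if_true]
            exact S_not _
          · simp only [hb, decide_false, Bool.xor_false, if_false]
      rw [Finset.sum_congr rfl (fun a _ => h1 a), Finset.sum_add_distrib, Finset.sum_ite_eq']
      simp only [Finset.mem_univ, if_true]
      set F : Fin (2 * B + 1) → ℤ := fun a =>
        if a = mid B then 0 else if mid B < a then -S (fold B d) else S (fold B d) with hF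
      have h2 : ∑ a, F (Fin.revPerm a) = ∑ a, F a := Equiv.sum_comp Fin.revPerm F
      have h3 : ∀ a, F (Fin.revPerm a) = -F a := by
        intro a
        simp only [hF, Fin.revPerm_apply]
        have h4 : (a.rev = mid B) ↔ a = mid B := by
          constructor
          · intro h; rw [← rev_mid] at h; exact Fin.rev_injective h
          · intro h; rw [h, rev_mid]
        by_cases ha : a = mid B
        · simp [rev_mid, ha]
        · have h5 : (mid B < a.rev) ↔ ¬ (mid B < a) := by
            have h6 : (a : ℕ) ≠ B := fun h => ha (Fin.ext h)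
            simp only [Fin.lt_def, mid, Fin.val_rev]
            omega
          by_cases hb : mid B < a
          · simp [h4, ha, h5, hb]
          · simp [h4, ha, h5, hb]
      rw [Finset.sum_congr rfl (fun a _ => h3 a), Finset.sum_neg_distrib] at h2
      have h6 : ∑ a, F a = 0 := by omega
      rw [h6]
      rfl

/-- all dimensions up to the first one without proper colourings of `[2B]^d` -/
theorem odd_main {B d : ℕ} (hB : 1 ≤ B) (h : ∃ c : (Fin d → Fin (2 * B)) → Bool, Proper c) :
    ∃ C : (Fin (d + 1) → Fin (2 * B + 1)) → Bool, Proper C ∧ S C = 1 := by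
  by_cases hd : d + 1 ≤ 2 * B
  · exact explicit_odd hB (d + 1) hd
  · obtain ⟨c, hc⟩ := h
    obtain ⟨a, ha, hs⟩ := balance (n := 2 * B) (d := d) ⟨B, by ring⟩ (by omega) (by omega) hc
    obtain ⟨C, hC1, hC2⟩ := assemble hB a ha hs
    exact lift_odd hB hC1 hC2

end Pool.HJI
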